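import Mathlib
import Pool.Agent.Run7.h752.SC.BridgeA

/-!
# Symplectic forms in a class and in a homotopy class: bounded primitives on amenable coverings

`X` is a closed manifold of dimension `2 (m + 1)` oriented by a volume form, `σ` is a closed
two-form with `σ ^ (m + 1)` nonnegative, `ζ` is a closed two-form, and `τ` is a two-form.
`pr : Z → X` is a normal covering with an amenable group `Γ`. There is no almost complex structure.

Then the class of `ζ` contains a form `ζ + dα` such that, for all small `t > 0`, the forms
`σ + t (ζ + dα)` are positive symplectic forms, with top power at least `c t vol`, which are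
homotopic to `τ` through nondegenerate forms, if and only if `τ` is homotopic to a form adjacent to
`σ` and there is a one-form `β` on `Z`, whose translates by `Γ` are locally uniformly bounded with
all derivatives, with the following property: for every test set `C` of `σ` there is a one-form `α`
on `X` such that, for `w = pr^* (ζ + dα) + dβ`, the forms `(γ^* w) ∧ (pr^* σ) ^ m`, `γ ∈ Γ`, are
nonnegative over `C`, and at some point over `C` they are at least `c pr^* vol` for a `c > 0` which
does not depend on `γ`.

In particular, let `a = [σ]`, let `ζ = 0`, and let `w = dβ` be exact on `Z`, with a bounded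
primitive, uniformly positive in this sense; then the class `a` of Q1 contains symplectic forms.
-/

set_option autoImplicit false

open Set MeasureTheory
open scoped Manifold ContDiff

namespace Pool.Agent.Results.MP_bf98aa_gt.AmenableCoverings

open Pool.Agent.Y501.SYP
open Pool.Agent.R772.SYK
open Pool.Agent.R772.SYF
open Pool.Agent.R772.SYD
open Pool.Agent.R772.SYM
open Pool.Agent.R772.SYU
open Run7.h752.SYX

theorem result (m d : ℕ) (hd : d = 2 * (m + 1)) (Z X : Type) [TopologicalSpace Z]
    [ChartedSpace (ES d) Z] [IsManifold 𝓘(ℝ, ES d) ∞ Z] [TopologicalSpace X]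
    [ChartedSpace (ES d) X] [IsManifold 𝓘(ℝ, ES d) ∞ X] [CompactSpace X] [T2Space X]
    (vol : TopForm (ES d) X m) (hvol : IsVolume vol)
    (σ : Form (ES d) X 2) (hσ : IsClosed2 σ) (hnn : TopNonneg vol σ)
    (Γ : Type) [Group Γ] [MulAction Γ Z] (hΓ : Amenable Γ)
    (pr : Z → X) (hpr : NormalCovering (ES d) Γ pr)
    (ζ : Form (ES d) X 2) (hζ : IsClosed2 ζ) (τ : Form (ES d) X 2) :
    (∃ (α : Form (ES d) X 1) (ρ : Form (ES d) X 2) (c : ℝ), ExactPair α ρ ∧
        SympHomotopicUpTo vol σ (addF ζ ρ) τ c) ↔
      NearHomotopic vol σ τ ∧ ∃ (β : Form (ES d) Z 1) (η : Form (ES d) Z 2), ExactPair β η ∧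
        BoundedTranslates1 Γ β ∧ ∀ C : Set X, TestSet vol σ C →
          ∃ (α : Form (ES d) X 1) (ρ : Form (ES d) X 2), ExactPair α ρ ∧
            UnifSemiPos Γ pr vol σ (addF (addF (lift pr ζ) η) (lift pr ρ)) C :=
  amen_hom hd hvol hσ hnn hΓ hpr hζ τ

end Pool.Agent.Results.MP_bf98aa_gt.AmenableCoverings
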