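import Mathlib
import Pool.Agent.Run7.h752.SC.BridgeV

/-!
# Symplectic forms in a class and in a homotopy class: extremal closed currents

`X` is a closed manifold of dimension `2 (m + 1)` oriented by a volume form, `σ` is a closed
two-form with `σ ^ (m + 1)` nonnegative, and `τ` is a two-form. We ask for closed forms `η` such
that the forms `σ + t η`, for all small `t > 0`, are positive symplectic forms, with top power at
least `c t vol`, which are homotopic to `τ` through nondegenerate two-forms.

1. The class of a closed form `ζ` contains such a form `η = ζ + dα` if and only if `τ` is homotopic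
   to a form adjacent to `σ` and the integral of `ζ` over every extremal closed current on the
   degenerate set of `σ` is positive; instead of the latter it suffices that for every extremal
   closed current some form `(ζ + dα) ∧ σ ^ m` is nonnegative over its support and positive at a
   point of it.
2. Let the classes of the closed forms `ζ 0, …, ζ (n - 1)` span the second cohomology. Then some
   closed form `η` is as required if and only if `τ` is homotopic to a form adjacent to `σ` and
   there are no `r ≤ n + 1` extremal closed currents, `r > 0`, whose sum vanishes on all `ζ i`.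

For `ζ = 0` the first part is a criterion for symplectic forms in the class `a = [σ]` of Q1 which
are homotopic to `τ`.
-/

set_option autoImplicit false

open Set MeasureTheory
open scoped Manifold ContDiff

namespace Pool.Agent.Results.MP_bf98aa_gt.ExtremalHomotopy

open Pool.Agent.Y501.SYP
open Pool.Agent.R772.SYK
open Pool.Agent.R772.SYF
open Pool.Agent.R772.SYD
open Pool.Agent.R772.SYM
open Pool.Agent.R772.SYU
open Run7.h752.SYX

theorem result (m d : ℕ) (hd : d = 2 * (m + 1)) (X : Type) [TopologicalSpace X]
    [ChartedSpace (ES d) X] [IsManifold 𝓘(ℝ, ES d) ∞ X] [CompactSpace X] [T2Space X]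
    [MeasurableSpace X] [BorelSpace X]
    (vol : TopForm (ES d) X m) (hvol : IsVolume vol)
    (σ : Form (ES d) X 2) (hσ : IsClosed2 σ) (hnn : TopNonneg vol σ) (τ : Form (ES d) X 2) :
    (∀ ζ : Form (ES d) X 2, IsClosed2 ζ → List.TFAE [
      ∃ (α : Form (ES d) X 1) (ρ : Form (ES d) X 2) (c : ℝ), ExactPair α ρ ∧
        SympHomotopicUpTo vol σ (addF ζ ρ) τ c,
      NearHomotopic vol σ τ ∧
        ∀ μ : Measure X, Extremal vol σ μ → 0 < ∫ x, density vol σ ζ x ∂μ,
      NearHomotopic vol σ τ ∧ ∀ μ : Measure X, Extremal vol σ μ →
        ∃ (α : Form (ES d) X 1) (ρ : Form (ES d) X 2), ExactPair α ρ ∧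
          SemiPos vol σ (addF ζ ρ) μ.support]) ∧
    ∀ (n : ℕ) (ζ : Fin n → Form (ES d) X 2), Spans ζ →
      ((∃ (η : Form (ES d) X 2) (c : ℝ), IsClosed2 η ∧ SympHomotopicUpTo vol σ η τ c) ↔
        NearHomotopic vol σ τ ∧
          ¬ ∃ (r : ℕ) (μ : Fin r → Measure X), NullSum vol σ ζ r μ) :=
  ⟨fun _ hζ => hom_tfae hd hvol hσ hnn τ hζ, fun _ _ hζ => hom_span hd hvol hσ hnn τ hζ⟩

end Pool.Agent.Results.MP_bf98aa_gt.ExtremalHomotopy
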