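import Mathlib
import Pool.Agent.Run7.h752.SC.BridgeT2

/-!
# Symplectic forms in a class and in a homotopy class: families of degenerate closed forms

`X` is a closed manifold of dimension `2 (m + 1)` oriented by a volume form and `τ` is a two-form.

1. Let `σ p`, `p ∈ P`, be a continuous family of closed two-forms with nonnegative top power over a
   compact Hausdorff space `P`, which are symplectic for `p` in the closed set `Q`; let `σ q₀`,
   `q₀ ∈ Q`, be homotopic to `τ` through nondegenerate forms, and let `ζ p` be a continuous family of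
   closed two-forms. The following are equivalent: the integral of `ζ p` over each extremal closed
   current of `σ p` is positive, for all `p`; the criterion of the test sets holds for all `p`; there
   are finitely many one-forms `α_i` and nonnegative continuous functions `φ_i` on `P`, zero on `Q`,
   such that, for `η p = ∑ φ_i(p) (ζ p + dα_i)`, the form `η p ∧ (σ p) ^ m` is positive over the
   degenerate set of `σ p`, and the forms `σ p + t η p`, `0 < t ≤ 1`, are positive symplectic forms,
   which, for `p` in the path component of `q₀`, are joined to `σ q₀` by positive symplectic forms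
   and are homotopic to `τ` through nondegenerate forms.
2. Let `σ s`, `0 ≤ s ≤ 1`, be a continuous path of closed two-forms with nonnegative top power, of
   varying cohomology class, with `σ 0` symplectic. If there are no extremal closed currents on the
   degenerate sets of the forms `σ s` then the class of `σ 1` contains a symplectic form which is
   joined to `σ 0` by a path of symplectic forms.

So the class `a` of Q1 contains a symplectic form homotopic to `τ` if there are a symplectic form
homotopic to `τ` (in any class) and such a path which ends in the class `a`.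
-/

set_option autoImplicit false

open Set MeasureTheory
open scoped Manifold ContDiff

namespace Pool.Agent.Results.MP_bf98aa_gt.FamiliesAndPaths

open Pool.Agent.Y501.SYP
open Pool.Agent.R772.SYK
open Pool.Agent.R772.SYF
open Pool.Agent.R772.SYD
open Pool.Agent.R772.SYM
open Pool.Agent.R772.SYU
open Run7.h752.SYX

theorem result (m d : ℕ) (hd : d = 2 * (m + 1)) (X : Type) [TopologicalSpace X]
    [ChartedSpace (ES d) X] [IsManifold 𝓘(ℝ, ES d) ∞ X] [CompactSpace X] [T2Space X]
    [MeasurableSpace X] [BorelSpace X]
    (vol : TopForm (ES d) X m) (hvol : IsVolume vol) :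
    (∀ (P : Type) [TopologicalSpace P] [CompactSpace P] [T2Space P] (Q : Set P),
      IsClosed Q → ∀ σ ζ : P → Form (ES d) X 2, IsFamily vol σ → ClosedFam ζ →
      (∀ q ∈ Q, IsPosSymplectic vol (σ q)) → ∀ (τ : Form (ES d) X 2) (q₀ : P), q₀ ∈ Q →
      Homotopic τ (σ q₀) →
      List.TFAE [
        ∀ (p : P) (μ : Measure X), Extremal vol (σ p) μ →
          0 < ∫ x, density vol (σ p) (ζ p) x ∂μ,
        ∀ (p : P) (C : Set X), TestSet vol (σ p) C →
          ∃ (α : Form (ES d) X 1) (ρ : Form (ES d) X 2), ExactPair α ρ ∧
            SemiPos vol (σ p) (addF (ζ p) ρ) C,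
        ∃ (n : ℕ) (α : Fin n → Form (ES d) X 1) (ρ : Fin n → Form (ES d) X 2)
          (φ : Fin n → P → ℝ), CompressionTo vol Q σ ζ α ρ φ ∧
          ∀ t : ℝ, 0 < t → t ≤ 1 → ∀ p, Joined q₀ p →
            SympJoined vol (σ q₀) (comb (σ p) t (mixF (fun i => φ i p) (ζ p) ρ)) ∧
            Homotopic τ (comb (σ p) t (mixF (fun i => φ i p) (ζ p) ρ))]) ∧
    ∀ σ : unitInterval → Form (ES d) X 2, IsFamily vol σ → IsPosSymplectic vol (σ 0) →
      (∀ (s : unitInterval) (μ : Measure X), ¬ Extremal vol (σ s) μ) →
      ∃ (α : Form (ES d) X 1) (ρ : Form (ES d) X 2), ExactPair α ρ ∧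
        IsPosSymplectic vol (addF (σ 1) ρ) ∧ SympJoined vol (σ 0) (addF (σ 1) ρ) :=
  ⟨fun _ _ _ _ _ hQ _ _ hσ hζ hpos _ _ hq hτ => family_hom hd hvol hQ hσ hζ hpos hq hτ,
    fun _ hσ h0 h => path_hom hd hvol hσ h0 h⟩

end Pool.Agent.Results.MP_bf98aa_gt.FamiliesAndPaths
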