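import Mathlib
import Pool.Agent.Run7.h752.SC.BridgeLV

/-!
# Symplectic forms in a homotopy class of nondegenerate forms: surfaces tangent to the kernel

`X` is a closed manifold of dimension `2 (m + 1)` oriented by a volume form, `σ` is a closed
two-form with `σ ^ (m + 1)` nonnegative, `Deg m σ` is the set where `σ ^ (m + 1)` vanishes, and `τ`
is a two-form. We look for closed forms `η` such that, for some `c > 0`, the forms `σ + t η`,
`0 < t ≤ c`, are positive symplectic forms with top power at least `c t vol`, which are homotopic to
`τ` through nondegenerate two-forms.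

1. The class of a closed form `ζ` contains such a form `η = ζ + dα` if and only if `τ` is homotopic
   to a form adjacent to `σ` and, for every laminated test set `C`, some form `(ζ + dα) ∧ σ ^ m` is
   nonnegative over `C` and positive at a point of `C`. A laminated test set contains a smooth
   immersed disc tangent to the kernel of `σ` through each of its points where `σ ^ m` does not
   vanish, and it is invariant under the vector fields tangent to the kernel over it.
2. Let `Deg m σ` be covered by closed sets `F k` such that at each point `z` of `F k ∩ Deg m σ`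
   either this set is small, or `σ ^ m` does not vanish and the set contains no disc through `z`
   tangent to the kernel of `σ`, or one can leave `Deg m σ` from `z` along a vector field tangent to
   the kernel. Then the classes of all closed forms `ζ` contain such forms `η` if `τ` is homotopic
   to a form adjacent to `σ`, and none does otherwise.
3. This is so if `σ ^ m` does not vanish on `Deg m σ` and this set contains no disc tangent to the
   kernel of `σ`.

For `ζ = 0` one gets symplectic forms in the class `a = [σ]` of Q1 which are homotopic to `τ`.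
-/

set_option autoImplicit false

open Set MeasureTheory
open scoped Manifold ContDiff

namespace Pool.Agent.Results.MP_bf98aa_gt.LaminatedHomotopy

open Pool.Agent.Y501.SYP
open Pool.Agent.R772.SYK
open Pool.Agent.R772.SYF
open Pool.Agent.R772.SYD
open Pool.Agent.R772.SYM
open Pool.Agent.R772.SYU
open Run7.h752.SYX

theorem result (m d : ℕ) (hd : d = 2 * (m + 1)) (X : Type) [TopologicalSpace X]
    [ChartedSpace (ES d) X] [IsManifold 𝓘(ℝ, ES d) ∞ X] [CompactSpace X] [T2Space X]
    (vol : TopForm (ES d) X m) (hvol : IsVolume vol)
    (σ : Form (ES d) X 2) (hσ : IsClosed2 σ) (hnn : TopNonneg vol σ) (τ : Form (ES d) X 2) :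
    (∀ ζ : Form (ES d) X 2, IsClosed2 ζ →
      ((∃ (α : Form (ES d) X 1) (ρ : Form (ES d) X 2) (c : ℝ), ExactPair α ρ ∧
          SympHomotopicUpTo vol σ (addF ζ ρ) τ c) ↔
        NearHomotopic vol σ τ ∧ ∀ C : Set X, LamTest vol σ C →
          ∃ (α : Form (ES d) X 1) (ρ : Form (ES d) X 2),
            ExactPair α ρ ∧ SemiPos vol σ (addF ζ ρ) C)) ∧
    (∀ F : ℕ → Set X, Removable vol σ F → ∀ ζ : Form (ES d) X 2, IsClosed2 ζ →
      ((∃ (α : Form (ES d) X 1) (ρ : Form (ES d) X 2) (c : ℝ), ExactPair α ρ ∧
          SympHomotopicUpTo vol σ (addF ζ ρ) τ c) ↔ NearHomotopic vol σ τ)) ∧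
    ((∀ z ∈ Deg m σ, PowNe m σ z ∧ ¬ TangentDisc σ (Deg m σ) z) →
      ∀ ζ : Form (ES d) X 2, IsClosed2 ζ →
        ((∃ (α : Form (ES d) X 1) (ρ : Form (ES d) X 2) (c : ℝ), ExactPair α ρ ∧
            SympHomotopicUpTo vol σ (addF ζ ρ) τ c) ↔ NearHomotopic vol σ τ)) :=
  ⟨fun _ hζ => good_lam hd hvol hσ hnn τ hζ,
    fun _ hF _ hζ => good_rem hd hvol hσ hnn τ hF hζ,
    fun h _ hζ => good_rem hd hvol hσ hnn τ (removable_of_noDisc h) hζ⟩

end Pool.Agent.Results.MP_bf98aa_gt.LaminatedHomotopy
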